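import Pool.Agent.W257.HL.Stm2
import Pool.Agent.W349.HZ.LAT

/-!
# HL-RED2: reduction of the quartic, with an upper bound for `v₁`, `v₂`
-/

set_option autoImplicit false

namespace Pool.Agent.W762.HL2

open Pool.Agent.W257.HL

theorem ab4 {a b c d p q s t : ℝ} (ha : |a| ≤ p) (hb : |b| ≤ q) (hc : |c| ≤ s) (hd : |d| ≤ t) :
    |a * b * c * d| ≤ p * q * s * t := by
  rw [abs_mul, abs_mul, abs_mul]
  have hp := (abs_nonneg a).trans ha
  have hq := (abs_nonneg b).trans hb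
  have hs := (abs_nonneg c).trans hc
  gcongr

theorem ab1 {k K m M : ℝ} (hk : |k| ≤ K) (hm : |m| ≤ M) : |k * m| ≤ K * M := by
  rw [abs_mul]
  have hK := (abs_nonneg k).trans hk
  gcongr

theorem bd4 (c E₁ E₂ h s r p : ℝ) (hh : 1 ≤ h) (hc : |c| ≤ 1) (h1 : |E₁| ≤ 16 * h)
    (h2 : |E₂| ≤ 16 * h) (hs : |s| ≤ p) (hr : |r| ≤ p) :
    |c * (s * s * s * s) + 4 * (s * s * s * r) + E₁ * (s * r * r * r) + E₂ * (r * r * r * r)| ≤
      37 * h * (p * p * p * p) := by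
  have a1 := ab1 hc (ab4 hs hs hs hs)
  have a2 := ab4 hs hs hs hr
  have a3 := ab1 h1 (ab4 hs hr hr hr)
  have a4 := ab1 h2 (ab4 hr hr hr hr)
  have hp : 0 ≤ p * p * p * p := (abs_nonneg _).trans a2
  have h5 : p * p * p * p ≤ h * (p * p * p * p) := le_mul_of_one_le_left hp hh
  rw [abs_le] at *
  constructor <;> linarith [a1.1, a1.2, a2.1, a2.2, a3.1, a3.2, a4.1, a4.2]

theorem bd31 (c E₁ E₂ h s r s' r' p q : ℝ) (hh : 1 ≤ h) (hc : |c| ≤ 1) (h1 : |E₁| ≤ 16 * h)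
    (h2 : |E₂| ≤ 16 * h) (hs : |s| ≤ p) (hr : |r| ≤ p) (hs' : |s'| ≤ q) (hr' : |r'| ≤ q) :
    |4 * (c * (s * s * s * s')) + 12 * (s * s * r * s') + 4 * (s * s * s * r')
      + E₁ * (r * r * r * s') + 3 * (E₁ * (s * r * r * r')) + 4 * (E₂ * (r * r * r * r'))| ≤
      148 * h * (p * p * p * q) := by
  have a1 := ab1 hc (ab4 hs hs hs hs')
  have a2 := ab4 hs hs hr hs'
  have a3 := ab4 hs hs hs hr'
  have a4 := ab1 h1 (ab4 hr hr hr hs')
  have a5 := ab1 h1 (ab4 hs hr hr hr')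
  have a6 := ab1 h2 (ab4 hr hr hr hr')
  have hp : 0 ≤ p * p * p * q := (abs_nonneg _).trans a2
  have h5 : p * p * p * q ≤ h * (p * p * p * q) := le_mul_of_one_le_left hp hh
  rw [abs_le] at *
  constructor <;> linarith [a1.1, a1.2, a2.1, a2.2, a3.1, a3.2, a4.1, a4.2, a5.1, a5.2,
    a6.1, a6.2]

theorem bd22 (c E₁ E₂ h s r s' r' p q : ℝ) (hh : 1 ≤ h) (hc : |c| ≤ 1) (h1 : |E₁| ≤ 16 * h)
    (h2 : |E₂| ≤ 16 * h) (hs : |s| ≤ p) (hr : |r| ≤ p) (hs' : |s'| ≤ q) (hr' : |r'| ≤ q) :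
    |6 * (c * (s * s * s' * s')) + 12 * (s * s * s' * r') + 12 * (s * r * s' * s')
      + 3 * (E₁ * (r * r * s' * r')) + 3 * (E₁ * (s * r * r' * r')) + 6 * (E₂ * (r * r * r' * r'))| ≤
      222 * h * (p * p * q * q) := by
  have a1 := ab1 hc (ab4 hs hs hs' hs')
  have a2 := ab4 hs hs hs' hr'
  have a3 := ab4 hs hr hs' hs'
  have a4 := ab1 h1 (ab4 hr hr hs' hr')
  have a5 := ab1 h1 (ab4 hs hr hr' hr')
  have a6 := ab1 h2 (ab4 hr hr hr' hr')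
  have hp : 0 ≤ p * p * q * q := (abs_nonneg _).trans a2
  have h5 : p * p * q * q ≤ h * (p * p * q * q) := le_mul_of_one_le_left hp hh
  rw [abs_le] at *
  constructor <;> linarith [a1.1, a1.2, a2.1, a2.2, a3.1, a3.2, a4.1, a4.2, a5.1, a5.2,
    a6.1, a6.2]

/-- the identities -/
theorem id4 (A x y u v : ℤ) (V s r : ℝ) (hV : V ≠ 0) (hx : (x : ℝ) = V ^ 4)
    (hu : (u : ℝ) = s / V + V ^ 3 * r) (hv : (v : ℝ) = V * r) :
    ((gq A x y u v : ℤ) : ℝ) = (1 / V ^ 4) * (s * s * s * s) + 4 * (s * s * s * r)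
      + (8 * ((y : ℝ) - V ^ 6) * V ^ 2) * (s * r * r * r)
      + ((8 * V ^ 2 * ((y : ℝ) - V ^ 6) - 4 * A) * V ^ 4) * (r * r * r * r) := by
  unfold gq
  push_cast
  rw [hx, hu, hv]
  field_simp
  ring

theorem id31 (A x y u v u' v' : ℤ) (V s r s' r' : ℝ) (hV : V ≠ 0) (hx : (x : ℝ) = V ^ 4)
    (hu : (u : ℝ) = s / V + V ^ 3 * r) (hv : (v : ℝ) = V * r)
    (hu' : (u' : ℝ) = s' / V + V ^ 3 * r') (hv' : (v' : ℝ) = V * r') :
    ((cb A x y u v u' v' : ℤ) : ℝ) = 4 * ((1 / V ^ 4) * (s * s * s * s')) + 12 * (s * s * r * s')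
      + 4 * (s * s * s * r')
      + (8 * ((y : ℝ) - V ^ 6) * V ^ 2) * (r * r * r * s')
      + 3 * ((8 * ((y : ℝ) - V ^ 6) * V ^ 2) * (s * r * r * r'))
      + 4 * (((8 * V ^ 2 * ((y : ℝ) - V ^ 6) - 4 * A) * V ^ 4) * (r * r * r * r')) := by
  unfold cb
  push_cast
  rw [hx, hu, hv, hu', hv']
  field_simp
  ring

theorem id22 (A x y u v u' v' : ℤ) (V s r s' r' : ℝ) (hV : V ≠ 0) (hx : (x : ℝ) = V ^ 4)
    (hu : (u : ℝ) = s / V + V ^ 3 * r) (hv : (v : ℝ) = V * r)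
    (hu' : (u' : ℝ) = s' / V + V ^ 3 * r') (hv' : (v' : ℝ) = V * r') :
    ((cc A x y u v u' v' : ℤ) : ℝ) = 6 * ((1 / V ^ 4) * (s * s * s' * s'))
      + 12 * (s * s * s' * r') + 12 * (s * r * s' * s')
      + 3 * ((8 * ((y : ℝ) - V ^ 6) * V ^ 2) * (r * r * s' * r'))
      + 3 * ((8 * ((y : ℝ) - V ^ 6) * V ^ 2) * (s * r * r' * r'))
      + 6 * (((8 * V ^ 2 * ((y : ℝ) - V ^ 6) - 4 * A) * V ^ 4) * (r * r * r' * r')) := by
  unfold cc
  push_cast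
  rw [hx, hu, hv, hu', hv']
  field_simp
  ring

theorem toNat {z : ℤ} {N : ℕ} (h : |(z : ℝ)| ≤ (N : ℝ)) : z.natAbs ≤ N := by
  have h1 : ((z.natAbs : ℕ) : ℝ) ≤ N := by
    rw [Nat.cast_natAbs]
    push_cast
    exact h
  exact_mod_cast h1

theorem ebd (A B x y : ℤ) (H : ℕ) (V : ℝ) (hH : H = max A.natAbs B.natAbs) (hH1 : 1 ≤ H)
    (hV : 1 ≤ V) (hx : (x : ℝ) = V ^ 4) (he : y ^ 2 = x ^ 3 + A * x + B) (hy : 0 ≤ y)
    (hxH : (H : ℤ) ≤ x) :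
    |8 * ((y : ℝ) - V ^ 6) * V ^ 2| ≤ 16 * (H : ℝ) ∧
    |(8 * V ^ 2 * ((y : ℝ) - V ^ 6) - 4 * (A : ℝ)) * V ^ 4| ≤ 16 * (H : ℝ) := by
  have hA : |(A : ℝ)| ≤ H := by
    have h1 : A.natAbs ≤ H := by rw [hH]; exact le_max_left _ _
    have h2 : ((A.natAbs : ℕ) : ℝ) ≤ H := by exact_mod_cast h1
    rw [Nat.cast_natAbs] at h2
    push_cast at h2
    exact h2
  have hB : |(B : ℝ)| ≤ H := by
    have h1 : B.natAbs ≤ H := by rw [hH]; exact le_max_right _ _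
    have h2 : ((B.natAbs : ℕ) : ℝ) ≤ H := by exact_mod_cast h1
    rw [Nat.cast_natAbs] at h2
    push_cast at h2
    exact h2
  have hyR : (0 : ℝ) ≤ y := by exact_mod_cast hy
  have hxR : (H : ℝ) ≤ V ^ 4 := by
    rw [← hx]
    exact_mod_cast hxH
  have hH0 : (1 : ℝ) ≤ H := by exact_mod_cast hH1
  have heR : (y : ℝ) ^ 2 = (V ^ 4) ^ 3 + A * V ^ 4 + B := by
    rw [← hx]
    exact_mod_cast he
  have hV0 : 0 < V := by linarith
  have hV2 : 0 < V ^ 2 := by positivity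
  have hV4 : 0 < V ^ 4 := by positivity
  have hV6 : 0 < V ^ 6 := by positivity
  set d : ℝ := (y : ℝ) - V ^ 6 with hd
  have hd1 : d * ((y : ℝ) + V ^ 6) = A * V ^ 4 + B := by
    rw [hd]
    linear_combination heR
  have hd2 : |d| * V ^ 6 ≤ 2 * H * V ^ 4 := by
    calc |d| * V ^ 6 ≤ |d| * ((y : ℝ) + V ^ 6) :=
          mul_le_mul_of_nonneg_left (by linarith) (abs_nonneg _)
      _ = |d * ((y : ℝ) + V ^ 6)| := by
          rw [abs_mul, abs_of_nonneg (by positivity : (0 : ℝ) ≤ (y : ℝ) + V ^ 6)]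
      _ = |A * V ^ 4 + B| := by rw [hd1]
      _ ≤ |(A : ℝ) * V ^ 4| + |(B : ℝ)| := abs_add_le _ _
      _ ≤ H * V ^ 4 + H * 1 := by
          rw [abs_mul, abs_of_pos hV4, mul_one]
          have := mul_le_mul_of_nonneg_right hA hV4.le
          linarith
      _ ≤ H * V ^ 4 + H * V ^ 4 := by
          have h1 : (1 : ℝ) ≤ V ^ 4 := one_le_pow₀ hV
          have := mul_le_mul_of_nonneg_left h1 (by linarith : (0 : ℝ) ≤ H)
          linarith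
      _ = 2 * H * V ^ 4 := by ring
  have hd3 : |d| * V ^ 2 ≤ 2 * H := by
    have h1 : (|d| * V ^ 2) * V ^ 4 ≤ (2 * H) * V ^ 4 := by
      calc (|d| * V ^ 2) * V ^ 4 = |d| * V ^ 6 := by ring
        _ ≤ _ := hd2
    exact le_of_mul_le_mul_right h1 hV4
  have hd4 : |d| ≤ 2 * V ^ 2 := by
    have h1 : |d| * V ^ 2 ≤ (2 * V ^ 2) * V ^ 2 := by
      calc |d| * V ^ 2 ≤ 2 * H := hd3
        _ ≤ 2 * V ^ 4 := by linarith
        _ = (2 * V ^ 2) * V ^ 2 := by ring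
    exact le_of_mul_le_mul_right h1 hV2
  refine ⟨?_, ?_⟩
  · rw [abs_mul, abs_mul, abs_of_pos hV2]
    have h8 : |(8 : ℝ)| = 8 := abs_of_pos (by norm_num)
    rw [h8]
    linarith
  · set e : ℝ := 8 * V ^ 2 * d - 4 * A with hedef
    have he1 : e * ((y : ℝ) + V ^ 6) = -(4 * (A * d)) + 8 * (V ^ 2 * B) := by
      have : e * ((y : ℝ) + V ^ 6) = 8 * V ^ 2 * (d * ((y : ℝ) + V ^ 6)) -
          4 * A * ((y : ℝ) + V ^ 6) := by
        rw [hedef]; ring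
      rw [this, hd1, hd]
      ring
    have hAd : |(A : ℝ) * d| ≤ H * (2 * V ^ 2) := ab1 hA hd4
    have hVB : |V ^ 2 * (B : ℝ)| ≤ V ^ 2 * H := ab1 (abs_of_pos hV2).le hB
    have he2 : |e| * V ^ 6 ≤ 16 * H * V ^ 2 := by
      calc |e| * V ^ 6 ≤ |e| * ((y : ℝ) + V ^ 6) :=
            mul_le_mul_of_nonneg_left (by linarith) (abs_nonneg _)
        _ = |e * ((y : ℝ) + V ^ 6)| := by
            rw [abs_mul, abs_of_nonneg (by positivity : (0 : ℝ) ≤ (y : ℝ) + V ^ 6)]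
        _ = |-(4 * (A * d)) + 8 * (V ^ 2 * B)| := by rw [he1]
        _ ≤ 16 * H * V ^ 2 := by
            rw [abs_le] at *
            constructor <;> linarith [hAd.1, hAd.2, hVB.1, hVB.2]
    rw [abs_mul, abs_of_pos hV4]
    have h1 : (|e| * V ^ 4) * V ^ 2 ≤ (16 * H) * V ^ 2 := by
      calc (|e| * V ^ 4) * V ^ 2 = |e| * V ^ 6 := by ring
        _ ≤ _ := he2
    exact le_of_mul_le_mul_right h1 hV2

theorem f1 (h X c K : ℝ) (hh : 1 ≤ h) (hX : X ≤ c) (hK0 : 0 ≤ K)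
    (hK : K * c ≤ 200000) : K * h * X ≤ 200000 * h ^ 2 := by
  have h0 : 0 ≤ h := by linarith
  have h1 : K * h * X ≤ K * h * c := mul_le_mul_of_nonneg_left hX (mul_nonneg hK0 h0)
  have h2 : (K * c) * h ≤ 200000 * h := mul_le_mul_of_nonneg_right hK h0
  have h3 : h * 1 ≤ h * h := mul_le_mul_of_nonneg_left hh h0
  calc K * h * X ≤ K * h * c := h1
    _ = (K * c) * h := by ring
    _ ≤ 200000 * h := h2
    _ ≤ 200000 * (h * h) := by linarith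
    _ = _ := by ring

theorem f2 (h X c K : ℝ) (hh : 1 ≤ h) (hX : X ≤ c * h) (hK0 : 0 ≤ K)
    (hK : K * c ≤ 200000) : K * h * X ≤ 200000 * h ^ 2 := by
  have h0 : 0 ≤ h := by linarith
  have h1 : K * h * X ≤ K * h * (c * h) := mul_le_mul_of_nonneg_left hX (mul_nonneg hK0 h0)
  have h2 : (K * c) * (h * h) ≤ 200000 * (h * h) :=
    mul_le_mul_of_nonneg_right hK (mul_nonneg h0 h0)
  calc K * h * X ≤ K * h * (c * h) := h1
    _ = (K * c) * (h * h) := by ring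
    _ ≤ 200000 * (h * h) := h2
    _ = _ := by ring

theorem f3 (T h : ℝ) (h4 : T ^ 4 ≤ 37 * h) (hh : 1 ≤ h) : T ^ 2 ≤ 19 * h := by
  have h1 := sq_nonneg (T ^ 2 - 1)
  have h2 : T ^ 4 = T ^ 2 * T ^ 2 := by ring
  linarith [h1, h2, (by ring : (T ^ 2 - 1) ^ 2 = T ^ 4 - 2 * T ^ 2 + 1)]

theorem f4 (w : ℝ) (h0 : 0 ≤ w) (h2 : w ≤ 2) : w * w ≤ 4 ∧ w * w * w * w ≤ 16 := by
  have h3 : w * w ≤ 2 * 2 := mul_le_mul h2 h2 h0 (by norm_num)
  have h4 : (w * w) * (w * w) ≤ (2 * 2) * (2 * 2) :=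
    mul_le_mul h3 h3 (mul_nonneg h0 h0) (by norm_num)
  constructor
  · linarith
  · calc w * w * w * w = (w * w) * (w * w) := by ring
      _ ≤ _ := h4
      _ = 16 := by norm_num

theorem f5 (s r T : ℝ) (hT : 0 < T) (h : (s ^ 2 + r ^ 2) * T ^ 2 ≤ 1) : |s| ≤ 1 / T := by
  rw [le_div_iff₀ hT]
  have h1 : (|s| * T) ^ 2 ≤ 1 ^ 2 := by
    have h2 : (|s| * T) ^ 2 = s ^ 2 * T ^ 2 := by
      rw [mul_pow, sq_abs]
    have h3 : 0 ≤ r ^ 2 * T ^ 2 := by positivity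
    rw [h2]
    linarith [(by ring : (s ^ 2 + r ^ 2) * T ^ 2 = s ^ 2 * T ^ 2 + r ^ 2 * T ^ 2)]
  exact le_of_sq_le_sq h1 (by norm_num)

theorem f6 (s r T : ℝ) (hT : 0 < T) (h : s ^ 2 + r ^ 2 ≤ 8 * T ^ 2) : |s| ≤ 3 * T := by
  apply abs_le_of_sq_le_sq _ (by positivity)
  have h1 := sq_nonneg r
  have h2 := sq_nonneg T
  calc s ^ 2 ≤ 8 * T ^ 2 := by linarith
    _ ≤ 9 * T ^ 2 := by linarith
    _ = (3 * T) ^ 2 := by ring

theorem f7 (T h : ℝ) (hT : 1 / 2 ≤ T) (h4 : T ^ 4 ≤ 37 * h) (hh : 1 ≤ h) : T ≤ 37 * h := by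
  rcases le_or_gt T 1 with h1 | h1
  · linarith
  · have h2 : T ^ 1 ≤ T ^ 4 := pow_le_pow_right₀ h1.le (by norm_num)
    linarith [pow_one T]

theorem red2 : S_RED2 := by
  refine ⟨200000, ?_⟩
  intro A B x y H hH hH1 he hy hxH hg
  have hx1 : (1 : ℤ) ≤ x := by
    have : (1 : ℤ) ≤ (H : ℤ) := by exact_mod_cast hH1
    linarith
  have hxR : (1 : ℝ) ≤ x := by exact_mod_cast hx1
  have hh : (1 : ℝ) ≤ H := by exact_mod_cast hH1
  obtain ⟨V, hV, hVx⟩ : ∃ V : ℝ, 1 ≤ V ∧ (x : ℝ) = V ^ 4 := by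
    refine ⟨Real.sqrt (Real.sqrt x), ?_, ?_⟩
    · rw [Real.one_le_sqrt, Real.one_le_sqrt]
      exact hxR
    · have h1 : Real.sqrt (Real.sqrt x) ^ 2 = Real.sqrt x := Real.sq_sqrt (Real.sqrt_nonneg _)
      have h2 : Real.sqrt x ^ 2 = (x : ℝ) := Real.sq_sqrt (by linarith)
      calc (x : ℝ) = Real.sqrt x ^ 2 := h2.symm
        _ = (Real.sqrt (Real.sqrt x) ^ 2) ^ 2 := by rw [h1]
        _ = _ := by ring
  have hV0 : 0 < V := by linarith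
  obtain ⟨h1, h2⟩ := ebd A B x y H V hH hH1 hV hVx he hy hxH
  obtain ⟨u₁, v₁, u₂, v₂, j, hdet, hv1, -, -, hL1, hL2⟩ := Pool.Agent.W349.HZ.LAT.t (V ^ 2) V hV
  have hT0 : (1 / 2 : ℝ) ≤ 2 ^ j / 2 := by
    have : (1 : ℝ) ≤ 2 ^ j := one_le_pow₀ (by norm_num)
    linarith
  set T : ℝ := 2 ^ j / 2 with hT
  have hTpos : 0 < T := by linarith
  set s₁ : ℝ := ((u₁ : ℝ) - V ^ 2 * v₁) * V with hs1
  set s₂ : ℝ := ((u₂ : ℝ) - V ^ 2 * v₂) * V with hs2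
  set r₁ : ℝ := (v₁ : ℝ) / V with hr1
  set r₂ : ℝ := (v₂ : ℝ) / V with hr2
  have hu₁ : (u₁ : ℝ) = s₁ / V + V ^ 3 * r₁ := by
    rw [hs1, hr1]; field_simp; ring
  have hu₂ : (u₂ : ℝ) = s₂ / V + V ^ 3 * r₂ := by
    rw [hs2, hr2]; field_simp; ring
  have hv₁ : (v₁ : ℝ) = V * r₁ := by
    rw [hr1]; field_simp
  have hv₂ : (v₂ : ℝ) = V * r₂ := by
    rw [hr2]; field_simp
  have hc : |(1 / V ^ 4 : ℝ)| ≤ 1 := by
    rw [abs_of_pos (by positivity)]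
    rw [div_le_one (by positivity)]
    exact one_le_pow₀ hV
  have bs1 : |s₁| ≤ 1 / T := f5 s₁ r₁ T hTpos hL1
  have br1 : |r₁| ≤ 1 / T := f5 r₁ s₁ T hTpos (by rw [add_comm]; exact hL1)
  have bs2 : |s₂| ≤ 3 * T := f6 s₂ r₂ T hTpos hL2
  have br2 : |r₂| ≤ 3 * T := f6 r₂ s₂ T hTpos (by rw [add_comm]; exact hL2)
  have g1 := bd4 _ _ _ _ _ _ _ hh hc h1 h2 bs1 br1
  rw [← id4 A x y u₁ v₁ V s₁ r₁ hV0.ne' hVx hu₁ hv₁] at g1
  have g2 := bd4 _ _ _ _ _ _ _ hh hc h1 h2 bs2 br2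
  rw [← id4 A x y u₂ v₂ V s₂ r₂ hV0.ne' hVx hu₂ hv₂] at g2
  have g3 := bd31 _ _ _ _ _ _ _ _ _ _ hh hc h1 h2 bs1 br1 bs2 br2
  rw [← id31 A x y u₁ v₁ u₂ v₂ V s₁ r₁ s₂ r₂ hV0.ne' hVx hu₁ hv₁ hu₂ hv₂] at g3
  have g4 := bd31 _ _ _ _ _ _ _ _ _ _ hh hc h1 h2 bs2 br2 bs1 br1
  rw [← id31 A x y u₂ v₂ u₁ v₁ V s₂ r₂ s₁ r₁ hV0.ne' hVx hu₂ hv₂ hu₁ hv₁] at g4
  have g5 := bd22 _ _ _ _ _ _ _ _ _ _ hh hc h1 h2 bs1 br1 bs2 br2
  rw [← id22 A x y u₁ v₁ u₂ v₂ V s₁ r₁ s₂ r₂ hV0.ne' hVx hu₁ hv₁ hu₂ hv₂] at g5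
  -- the value at `(u₁, v₁)` is at least one
  have hge : (1 : ℝ) ≤ |((gq A x y u₁ v₁ : ℤ) : ℝ)| := by
    have h3 : gq A x y u₁ v₁ ≠ 0 := hg u₁ v₁ (by omega)
    have h4 : (1 : ℤ) ≤ |gq A x y u₁ v₁| := Int.one_le_abs h3
    exact_mod_cast h4
  have hT4 : T ^ 4 ≤ 37 * H := by
    have h3 : (1 : ℝ) ≤ 37 * H * (1 / T * (1 / T) * (1 / T) * (1 / T)) := hge.trans g1
    have h4 : 37 * (H : ℝ) * (1 / T * (1 / T) * (1 / T) * (1 / T)) = 37 * H / T ^ 4 := by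
      field_simp
    rw [h4, le_div_iff₀ (by positivity)] at h3
    linarith
  have hT2 : T ^ 2 ≤ 19 * H := f3 T H hT4 hh
  have hiT : 1 / T ≤ 2 := by
    rw [div_le_iff₀ hTpos]; linarith
  have hiT0 : 0 ≤ 1 / T := by positivity
  have hTi : T * (1 / T) = 1 := by field_simp
  set w : ℝ := 1 / T with hw
  obtain ⟨hw2, hw4⟩ := f4 w hiT0 hiT
  have hTH : T ≤ 37 * H := f7 T H hT0 hT4 hh
  have hr1' : |r₁| * V = |(v₁ : ℝ)| := by
    rw [hr1, abs_div, abs_of_pos hV0]; field_simp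
  have hr2' : |r₂| * V = |(v₂ : ℝ)| := by
    rw [hr2, abs_div, abs_of_pos hV0]; field_simp
  have hVx' : V ≤ (x : ℝ) := by
    rw [hVx]
    calc V = V ^ 1 := (pow_one V).symm
      _ ≤ V ^ 4 := pow_le_pow_right₀ hV (by norm_num)
  have habsx : |(x : ℝ)| = x := abs_of_pos (by linarith)
  have hxn : ((x.natAbs : ℕ) : ℝ) = x := by
    rw [Nat.cast_natAbs]
    push_cast
    exact habsx
  have hHx : (0 : ℝ) ≤ H * x := mul_nonneg (by linarith) (by linarith)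
  have hvb1 : |(v₁ : ℝ)| ≤ 200000 * H * x := by
    rw [← hr1']
    calc |r₁| * V ≤ 2 * x := mul_le_mul (br1.trans hiT) hVx' hV0.le (by norm_num)
      _ = 2 * (1 * x) := by ring
      _ ≤ 2 * (H * x) := by
          have := mul_le_mul_of_nonneg_right hh (by linarith : (0 : ℝ) ≤ x)
          linarith
      _ ≤ 200000 * (H * x) := by linarith
      _ = _ := by ring
  have hvb2 : |(v₂ : ℝ)| ≤ 200000 * H * x := by
    rw [← hr2']
    calc |r₂| * V ≤ (3 * (37 * H)) * x :=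
          mul_le_mul (br2.trans (by linarith)) hVx' hV0.le (by linarith)
      _ = 111 * (H * x) := by ring
      _ ≤ 200000 * (H * x) := by linarith
      _ = _ := by ring
  refine ⟨u₁, v₁, u₂, v₂, hdet, ?_, ?_, ?_, ?_, ?_, ?_, ?_⟩
  · apply toNat
    push_cast
    exact g1.trans (f1 _ _ 16 37 hh hw4 (by norm_num) (by norm_num))
  · apply toNat
    push_cast
    refine g3.trans ?_
    have h3 : w * w * w * (3 * T) = 3 * (w * w) := by
      linear_combination (3 * w * w) * hTi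
    rw [h3]
    exact f1 _ _ 12 148 hh (by linarith) (by norm_num) (by norm_num)
  · apply toNat
    push_cast
    refine g5.trans ?_
    have h3 : w * w * (3 * T) * (3 * T) = 9 := by
      linear_combination (9 * (T * w) + 9) * hTi
    rw [h3]
    exact f1 _ _ 9 222 hh le_rfl (by norm_num) (by norm_num)
  · apply toNat
    push_cast
    refine g4.trans ?_
    have h3 : 3 * T * (3 * T) * (3 * T) * w = 27 * T ^ 2 := by
      linear_combination (27 * T ^ 2) * hTi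
    rw [h3]
    exact f2 _ _ 513 148 hh (by linarith) (by norm_num) (by norm_num)
  · apply toNat
    push_cast
    refine g2.trans ?_
    have h3 : 3 * T * (3 * T) * (3 * T) * (3 * T) = 81 * T ^ 4 := by ring
    rw [h3]
    exact f2 _ _ 2997 37 hh (by linarith) (by norm_num) (by norm_num)
  · apply toNat
    set M : ℕ := max v₁.natAbs v₂.natAbs with hM
    have hM1 : |(v₁ : ℝ)| ≤ M := by
      have h3 : ((v₁.natAbs : ℕ) : ℝ) ≤ M := by exact_mod_cast le_max_left _ _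
      rw [Nat.cast_natAbs] at h3
      push_cast at h3
      exact h3
    have hM2 : |(v₂ : ℝ)| ≤ M := by
      have h3 : ((v₂.natAbs : ℕ) : ℝ) ≤ M := by exact_mod_cast le_max_right _ _
      rw [Nat.cast_natAbs] at h3
      push_cast at h3
      exact h3
    have hdetR : s₁ * r₂ - s₂ * r₁ = 1 := by
      have h3 : (u₁ : ℝ) * v₂ - u₂ * v₁ = 1 := by exact_mod_cast hdet
      rw [← h3, hs1, hs2, hr1, hr2]
      field_simp
      ring
    have h5 : (1 : ℝ) ≤ w * |r₂| + 3 * T * |r₁| := by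
      have h6 := ab1 bs1 (le_refl |r₂|)
      have h7 := ab1 bs2 (le_refl |r₁|)
      rw [abs_le] at h6 h7
      linarith [h6.2, h7.1]
    have hwT : w ≤ 4 * T := by linarith
    have hM0 : (0 : ℝ) ≤ M := by positivity
    have h8 : V ≤ 7 * T * M := by
      calc V = 1 * V := (one_mul V).symm
        _ ≤ (w * |r₂| + 3 * T * |r₁|) * V := mul_le_mul_of_nonneg_right h5 hV0.le
        _ = w * (|r₂| * V) + 3 * T * (|r₁| * V) := by ring
        _ = w * |(v₂ : ℝ)| + 3 * T * |(v₁ : ℝ)| := by rw [hr1', hr2']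
        _ ≤ (4 * T) * M + 3 * T * M := by
            have := mul_le_mul hwT hM2 (abs_nonneg _) (by positivity : (0 : ℝ) ≤ 4 * T)
            have := mul_le_mul_of_nonneg_left hM1 (by positivity : (0 : ℝ) ≤ 3 * T)
            linarith
        _ = 7 * T * M := by ring
    have h9 : V ^ 4 ≤ (7 * T * M) ^ 4 := pow_le_pow_left₀ hV0.le h8 4
    rw [hVx, abs_of_pos (by positivity)]
    push_cast
    calc V ^ 4 ≤ (7 * T * M) ^ 4 := h9
      _ = 2401 * T ^ 4 * (M : ℝ) ^ 4 := by ring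
      _ ≤ 2401 * (37 * H) * (M : ℝ) ^ 4 := by gcongr
      _ = (2401 * 37) * (H * (M : ℝ) ^ 4) := by ring
      _ ≤ 200000 * (H * (M : ℝ) ^ 4) := by
          apply mul_le_mul_of_nonneg_right (by norm_num)
          positivity
      _ = _ := by
          rw [hM]
          push_cast
          ring
  · refine max_le ?_ ?_
    · apply toNat
      push_cast
      rw [hxn]
      exact hvb1
    · apply toNat
      push_cast
      rw [hxn]
      exact hvb2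

end Pool.Agent.W762.HL2
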